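import Pool.Agent.V11197.CM.Main

/-!
# MP_768c9c_nt: an affirmative answer to the Kahane-Saias question refutes the Riemann Hypothesis

For some absolute `ε > 0`: if `ζ` has no zeros with real part `> 1/2 + ε` (in particular under the
Riemann Hypothesis), then there is a CMO function with `S_f(x) = O(x^(-1/2-c))`, `c > 0`; so an
affirmative answer to Q1 implies that `ζ` has a zero with real part `> 1/2 + ε`.

The proof follows the proof of `MP_a187e6_nt.BeyondSquareRoot` (modules `Pool.Agent.W76.MO` and the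
modules which it uses, which treat multiplicative functions supported on squarefree numbers). The
new parts are the completely multiplicative version of the system of equations
(`Pool.Agent.V11197.CM`) and the zero-free half-plane in place of RH (`Pool.Agent.V11197.ZT`).
-/

set_option autoImplicit false

namespace Pool.Agent.Results.MP_768c9c_nt.ImpliesZetaZero

open Filter Topology Finset

/-- `f` (only its values at `n ≥ 1` matter) is a CMO function: completely multiplicative, with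
`∑ f(n)` convergent to `0` -/
structure IsCMO (f : ℕ → ℂ) : Prop where
  one : f 1 = 1
  mul : ∀ m n : ℕ, 1 ≤ m → 1 ≤ n → f (m * n) = f m * f n
  sum_zero : Tendsto (fun N : ℕ => ∑ n ∈ Icc 1 N, f n) atTop (𝓝 0)

/-- the partial sum `S_f(x) = ∑_{n ≤ x} f(n)` -/
noncomputable def partialSum (f : ℕ → ℂ) (x : ℝ) : ℂ := ∑ n ∈ Icc 1 ⌊x⌋₊, f n

/-- the affirmative answer to Q1: `S_f(x)` is not `o(x^(-1/2))`, for every CMO function `f` -/
def KahaneSaias : Prop := ∀ f : ℕ → ℂ, IsCMO f →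
  ¬ Tendsto (fun x : ℝ => Real.sqrt x * ‖partialSum f x‖) atTop (𝓝 0)

/-- There is `ε > 0` such that: if `ζ(s) ≠ 0` for `Re s > 1/2 + ε`, then some CMO function `f` has
`|S_f(x)| ≤ C x^(-1/2-c)` for all `x ≥ 1`, with constants `c, C > 0`; hence an affirmative answer
to Q1 implies that `ζ` has a zero with real part `> 1/2 + ε`, and that the Riemann Hypothesis is
false. -/
theorem result : ∃ ε : ℝ, 0 < ε ∧
    ((∀ s : ℂ, 1 / 2 + ε < s.re → riemannZeta s ≠ 0) →
      ∃ f : ℕ → ℂ, IsCMO f ∧ ∃ c C : ℝ, 0 < c ∧ 0 < C ∧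
        ∀ x : ℝ, 1 ≤ x → ‖partialSum f x‖ ≤ C * x ^ (-(1 / 2 : ℝ) - c)) ∧
    (KahaneSaias → ¬ RiemannHypothesis ∧ ∃ s : ℂ, 1 / 2 + ε < s.re ∧ riemannZeta s = 0) := by
  obtain ⟨ε, hε, _, hmain⟩ := Pool.Agent.W76.MO.mainc
  have hfirst : (∀ s : ℂ, 1 / 2 + ε < s.re → riemannZeta s ≠ 0) →
      ∃ f : ℕ → ℂ, IsCMO f ∧ ∃ c C : ℝ, 0 < c ∧ 0 < C ∧
        ∀ x : ℝ, 1 ≤ x → ‖partialSum f x‖ ≤ C * x ^ (-(1 / 2 : ℝ) - c) := by
    intro h0
    obtain ⟨f, ⟨h1, h2, h3⟩, c, C, hc, hC, hb⟩ := hmain h0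
    refine ⟨f, ⟨h1, h2, h3⟩, c, C * (2 : ℝ) ^ (1 / 2 + c), hc, by positivity, fun x hx => ?_⟩
    have hfl : 1 ≤ ⌊x⌋₊ := by rwa [Nat.one_le_floor_iff]
    have h4 := hb ⌊x⌋₊ hfl
    have h5 : x / 2 ≤ ⌊x⌋₊ := by
      have := Nat.lt_floor_add_one x
      have h6 : (1 : ℝ) ≤ ⌊x⌋₊ := by exact_mod_cast hfl
      linarith
    have h6 : (⌊x⌋₊ : ℝ) ^ (-(1 / 2 : ℝ) - c) ≤ (x / 2) ^ (-(1 / 2 : ℝ) - c) :=
      Real.rpow_le_rpow_of_nonpos (by linarith) h5 (by linarith)
    have h7 : (x / 2) ^ (-(1 / 2 : ℝ) - c) = (2 : ℝ) ^ (1 / 2 + c) * x ^ (-(1 / 2 : ℝ) - c) := by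
      rw [Real.div_rpow (by linarith) (by norm_num), div_eq_mul_inv, ← Real.rpow_neg (by norm_num),
        mul_comm]
      congr 2
      ring
    calc ‖partialSum f x‖ ≤ C * (⌊x⌋₊ : ℝ) ^ (-(1 / 2 : ℝ) - c) := h4
      _ ≤ C * ((2 : ℝ) ^ (1 / 2 + c) * x ^ (-(1 / 2 : ℝ) - c)) :=
          mul_le_mul_of_nonneg_left (h6.trans h7.le) hC.le
      _ = C * (2 : ℝ) ^ (1 / 2 + c) * x ^ (-(1 / 2 : ℝ) - c) := by ring
  refine ⟨ε, hε, hfirst, fun hKS => ?_⟩
  have hz : ∃ s : ℂ, 1 / 2 + ε < s.re ∧ riemannZeta s = 0 := by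
    by_contra hcon
    push Not at hcon
    obtain ⟨f, hf, c, C, hc, hC, hb⟩ := hfirst hcon
    refine hKS f hf ?_
    have h1 : Tendsto (fun x : ℝ => C * x ^ (-c)) atTop (𝓝 0) := by
      have := (tendsto_rpow_neg_atTop hc).const_mul C
      rwa [mul_zero] at this
    refine squeeze_zero' (Eventually.of_forall fun x => by positivity) ?_ h1
    filter_upwards [eventually_ge_atTop 1] with x hx
    have hx0 : 0 < x := by linarith
    calc Real.sqrt x * ‖partialSum f x‖ ≤ Real.sqrt x * (C * x ^ (-(1 / 2 : ℝ) - c)) :=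
          mul_le_mul_of_nonneg_left (hb x hx) (Real.sqrt_nonneg x)
      _ = C * (x ^ (1 / 2 : ℝ) * x ^ (-(1 / 2 : ℝ) - c)) := by
          rw [Real.sqrt_eq_rpow]
          ring
      _ = C * x ^ (-c) := by
          rw [← Real.rpow_add hx0]
          congr 2
          ring
  refine ⟨fun hRH => ?_, hz⟩
  obtain ⟨s, hs, h0⟩ := hz
  have h1 : s ≠ 1 := by
    rintro rfl
    exact riemannZeta_one_ne_zero h0
  have h2 := hRH s h0 (by
    rintro ⟨n, hn⟩
    rw [hn] at hs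
    simp only [neg_mul, Complex.neg_re, Complex.mul_re, Complex.re_ofNat, Complex.add_re,
      Complex.natCast_re, Complex.one_re, Complex.im_ofNat, Complex.add_im, Complex.natCast_im,
      Complex.one_im, add_zero, mul_zero, sub_zero] at hs
    have : (0 : ℝ) ≤ n := Nat.cast_nonneg n
    linarith) h1
  linarith

end Pool.Agent.Results.MP_768c9c_nt.ImpliesZetaZero
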